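import Pool.Agent.Helper20.EQ.St2

/-!
# Project EQ (MP_cb927e_an), module BTW: pairs of hits in two classes without persistence
-/

set_option autoImplicit false

open MeasureTheory Set Filter Topology
open scoped ENNReal RealInnerProductSpace

namespace Pool.Agent.Helper37.EQ

open Pool.Agent.Helper68.LM (Pl BB Bd Av HL ft fm DQ)
open Pool.Agent.Helper20.RG Pool.Agent.Helper20.EQ
open Pool.Agent.Helper68.EP (elt GapP)

theorem measAv (μ : Measure Pl) [IsFiniteMeasure μ] (t : ℝ) (g : Pl → ℝ) (hg : Measurable g) :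
    Measurable (Av μ t g) := by
  have h1 : StronglyMeasurable (fun z : Pl × Pl => g (z.1 - t • z.2)) :=
    (hg.comp (measurable_fst.sub (measurable_snd.const_smul t))).stronglyMeasurable
  exact h1.integral_prod_right.measurable

theorem measCA (s la mu : ℝ) (k : ℤ) (A : ℕ) (g : Pl → ℝ) (hg : Measurable g) :
    Measurable (CA s la mu k A g) := by
  have h1 : IsFiniteMeasure (sg s) := by unfold sg; infer_instance
  have h2 : IsFiniteMeasure (sge (pt 0 1)) := by unfold sge; infer_instance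
  have h3 := measAv (sg s) ((2 : ℝ) ^ k * la) g hg
  exact measAv (sge (pt 0 1)) ((2 : ℝ) ^ (k - (A : ℤ)) * mu) _ h3

theorem measMC (s la mu : ℝ) (V : ℕ) (k : ℤ) (g : Pl → ℝ) (hg : Measurable g) :
    Measurable (MC s la mu V k g) := by
  have h1 : MC s la mu V k g = fun x => ⨆ A ∈ Finset.range (V + 1),
      ‖CA s la mu k A g x - CA s la mu k 0 g x‖ₑ := by
    funext x
    unfold MC
    rw [Finset.sup_eq_iSup]
  rw [h1]
  refine Measurable.iSup (fun A => Measurable.iSup (fun _ => ?_))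
  exact ((measCA s la mu k A g hg).sub (measCA s la mu k 0 g hg)).enorm

theorem cheb (f : Pl → ℝ≥0∞) (hf : Measurable f) (r : ℝ) (hr : 0 < r) :
    volume {x | ENNReal.ofReal r ≤ f x} ≤ ENNReal.ofReal (1 / r ^ 2) * ∫⁻ x, f x ^ 2 := by
  have h1 : {x | ENNReal.ofReal r ≤ f x} ⊆ {x | ENNReal.ofReal (r ^ 2) ≤ f x ^ 2} := by
    intro x hx
    simp only [mem_ofPred_eq] at hx ⊢
    rw [ENNReal.ofReal_pow hr.le]
    exact pow_le_pow_left' hx 2
  refine (measure_mono h1).trans ?_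
  have h2 := meas_ge_le_lintegral_div (μ := volume) (f := fun x => f x ^ 2)
    (hf.pow_const 2).aemeasurable (ε := ENNReal.ofReal (r ^ 2))
    (by rw [Ne, ENNReal.ofReal_eq_zero, not_le]; positivity) ENNReal.ofReal_ne_top
  refine h2.trans (le_of_eq ?_)
  rw [one_div, ENNReal.ofReal_inv_of_pos (by positivity), ENNReal.div_eq_inv_mul]

theorem chebMC (s la mu : ℝ) (V : ℕ) (k : ℤ) (g : Pl → ℝ) (hg : Measurable g) (v : Pl) (r : ℝ)
    (hr : 0 < r) :
    volume {x | ENNReal.ofReal r ≤ MC s la mu V k g (x - v)} ≤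
      ENNReal.ofReal (1 / r ^ 2) * ∫⁻ x, MC s la mu V k g x ^ 2 := by
  have h1 := cheb (fun x => MC s la mu V k g (x - v))
    ((measMC s la mu V k g hg).comp (measurable_id.sub_const v)) r hr
  refine h1.trans (le_of_eq ?_)
  congr 1
  exact lintegral_sub_right_eq_self (fun x => MC s la mu V k g x ^ 2) v

theorem leMC (s la mu : ℝ) (V A : ℕ) (k : ℤ) (g : Pl → ℝ) (x : Pl) (r d : ℝ) (hA : A ≤ V)
    (h1 : r ≤ CA s la mu k A g x) (h2 : CA s la mu k 0 g x ≤ d) :
    ENNReal.ofReal (r - d) ≤ MC s la mu V k g x := by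
  have h3 : ‖CA s la mu k A g x - CA s la mu k 0 g x‖ₑ ≤ MC s la mu V k g x :=
    Finset.le_sup (f := fun A => ‖CA s la mu k A g x - CA s la mu k 0 g x‖ₑ)
      (Finset.mem_range.2 (Nat.lt_succ_of_le hA))
  refine le_trans ?_ h3
  rw [Real.enorm_eq_ofReal_abs]
  refine ENNReal.ofReal_le_ofReal (le_trans ?_ (le_abs_self _))
  linarith

/-- the scale of a slope difference -/
theorem scaleEx (d : ℝ) (hd : 0 < d) (hd2 : d ≤ 2) : ∃ A : ℕ, (2 : ℝ) ^ (-(A : ℤ)) / 2 ≤ d ∧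
    d ≤ 2 * (2 : ℝ) ^ (-(A : ℤ)) ∧ ∀ B : ℕ, 1 ≤ B → (2 : ℝ) ^ (-(B : ℤ)) < d → A < B := by
  rcases le_or_gt d 1 with h | h
  · have hex : ∃ n : ℕ, (2 : ℝ) ^ (-(n : ℤ)) / 2 < d := by
      obtain ⟨n, hn⟩ := exists_pow_lt_of_lt_one hd (show (1 / 2 : ℝ) < 1 by norm_num)
      refine ⟨n, ?_⟩
      have h1 : (2 : ℝ) ^ (-(n : ℤ)) = (1 / 2) ^ n := by
        rw [zpow_neg, zpow_natCast, one_div, inv_pow]
      rw [h1]
      have h2 : (0 : ℝ) < (1 / 2) ^ n := by positivity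
      linarith
    classical
    refine ⟨Nat.find hex, (Nat.find_spec hex).le, ?_, ?_⟩
    · rcases Nat.eq_zero_or_pos (Nat.find hex) with h0 | h0
      · rw [h0]
        norm_num
        linarith
      · have h3 := Nat.find_min hex (m := Nat.find hex - 1) (by omega)
        rw [not_lt] at h3
        have h4 : (2 : ℝ) ^ (-((Nat.find hex - 1 : ℕ) : ℤ)) = 2 * (2 : ℝ) ^ (-(Nat.find hex : ℤ)) := by
          rw [← zpow_one_add₀ (by norm_num)]
          congr 1
          push_cast [Nat.cast_sub h0]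
          ring
        rw [h4] at h3
        have h5 : (0 : ℝ) < (2 : ℝ) ^ (-(Nat.find hex : ℤ)) := by positivity
        linarith
    · intro B hB hBd
      by_contra hcon
      rw [not_lt] at hcon
      rcases Nat.eq_zero_or_pos (Nat.find hex) with h0 | h0
      · omega
      · have h3 := Nat.find_min hex (m := B - 1) (by omega)
        rw [not_lt] at h3
        have h4 : (2 : ℝ) ^ (-((B - 1 : ℕ) : ℤ)) / 2 = (2 : ℝ) ^ (-(B : ℤ)) := by
          rw [div_eq_iff (by norm_num), ← zpow_add_one₀ (by norm_num)]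
          congr 1
          push_cast [Nat.cast_sub hB]
          ring
        rw [h4] at h3
        linarith
  · refine ⟨0, ?_, ?_, ?_⟩
    · norm_num
      linarith
    · norm_num
      exact hd2
    · intro B hB _
      omega

theorem locMono (C C' D : ℝ) (g : Pl → ℝ) (x : Pl) (h : C' ≤ C) (hL : Loc C D g x) :
    Loc C' D g x := by
  intro k
  refine le_trans (lintegral_mono_set ?_) (hL k)
  intro y hy
  have h1 : (0 : ℝ) < (2 : ℝ) ^ k := by positivity
  have h2 : C' * (2 : ℝ) ^ k ≤ C * (2 : ℝ) ^ k := mul_le_mul_of_nonneg_right h h1.le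
  exact ⟨hy.1.trans h2, hy.2.trans h2⟩

theorem hBTW (_hPT : StPT) (hGON : StGON) (hGTH : StGTH) (hLCZ : StLCZ) (hCEY : StCEY)
    (hCQ : StCQ) (hWT : StWT) (hSYS : StSYS) (hYB : StYB)
    (hGPG : Pool.Agent.Helper68.EP.StGPG) : StBTW := by
  intro φ τ A p c hG hA hGP hp
  have hp0 : 0 < p := by linarith
  have hGap : Gap (A ^ (1 / p)) p τ := hGPG τ A p hA hp0 hGP
  have hA₁ : 0 < A ^ (1 / p) := Real.rpow_pos_of_pos hA _
  obtain ⟨CG, hCG, hGONc⟩ := hGON 200 (by norm_num)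
  obtain ⟨CT, hCT, hGTHc⟩ := hGTH
  have hR : 0 < ‖c‖ + |φ 0| + 3 := by positivity
  obtain ⟨CL, hCL, hLCZc⟩ := hLCZ (‖c‖ + |φ 0| + 3) hR
  refine ⟨100 + 64 * CG + 4 * CT + CL, by linarith, ?_⟩
  intro u u' Yb M κ κ₁ η D D' Q g g' G hu huu hYb hYbu hη hη1 hκ hκ₁ hCκ₁ hCκ hD hD' hCD hCD' hM
    hQ hg hg' hg01 hg01' hGL
  set C : ℝ := 100 + 64 * CG + 4 * CT + CL with hC
  have hC100 : 100 ≤ C := by rw [hC]; linarith
  have hCG' : 64 * CG ≤ C := by rw [hC]; linarith
  have hCT' : 4 * CT ≤ C := by rw [hC]; linarith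
  have hCL' : CL ≤ C := by rw [hC]; linarith
  have h8D : 8 * D ≤ κ := by nlinarith
  have h2D' : 2 * D' ≤ κ₁ := by nlinarith
  have h100 : 100 * κ ≤ η := by nlinarith
  have hGκ₁ : CG * κ₁ ≤ η := by nlinarith
  have hg0 : ∀ x, 0 ≤ g x := fun x => (hg01 x).1
  have hg0' : ∀ x, 0 ≤ g' x := fun x => (hg01' x).1
  have hgL : ∀ x ∈ G, Loc CL D g x := fun x hx => locMono C CL D g x hCL' (hGL x hx).1
  have hgL' : ∀ x ∈ G, Loc CL D' g' x := fun x hx => locMono C CL D' g' x hCL' (hGL x hx).2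
  have hS := (hSYS φ τ (A ^ (1 / p)) p c hG hGap hA₁ hp0 u (by omega)).2 hu
  have hS' := (hSYS φ τ (A ^ (1 / p)) p c hG hGap hA₁ hp0 u' (by omega)).2 (by omega)
  have hsl : ∀ a < 2 ^ u, |sl τ u a| ≤ 1 := hS.slope
  have hsl' : ∀ b < 2 ^ u', |sl τ u' b| ≤ 1 := hS'.slope
  have hmm : ∀ a < 2 ^ u, mp τ u a ≤ mm τ u a := fun a ha => (hS.mm a ha).1
  have hmm' : ∀ b < 2 ^ u', mp τ u' b ≤ mm τ u' b := fun b hb => (hS'.mm b hb).1
  have hCQc := hCQ φ τ (A ^ (1 / p)) p c hG hGap hA₁ hp0 u (by omega)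
  have hWTb := fun θ => hWT φ τ A p hG hA hGP hp u' Yb θ (by omega) hYb
  have hWTa := (hWT φ τ A p hG hA hGP hp u 2 0 (by omega) le_rfl).2.2.2.2.1
  have hself : ∀ (x : Pl) (k : ℤ), x ∈ Sq x (2 * (2 : ℝ) ^ k) := by
    intro x k
    have : (0 : ℝ) < 2 ^ k := by positivity
    constructor <;> simp <;> positivity
  set Vb : ℕ → ℕ := fun b => Wt τ u' Yb (sl τ u' b) + u' + 1 with hVb
  set Va : ℕ → ℕ := fun a => Wt τ u 2 (sl τ u a) + u + 1 with hVa
  classical
  have hAf : ∀ d : ℝ, ∃ B : ℕ, 0 < d → d ≤ 2 → (2 : ℝ) ^ (-(B : ℤ)) / 2 ≤ d ∧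
      d ≤ 2 * (2 : ℝ) ^ (-(B : ℤ)) ∧ ∀ B' : ℕ, 1 ≤ B' → (2 : ℝ) ^ (-(B' : ℤ)) < d → B < B' := by
    intro d
    by_cases h : 0 < d ∧ d ≤ 2
    · obtain ⟨B, hB⟩ := scaleEx d h.1 h.2
      exact ⟨B, fun _ _ => hB⟩
    · exact ⟨0, fun h1 h2 => absurd ⟨h1, h2⟩ h⟩
  choose Af hAf using hAf
  have hd2 : ∀ a < 2 ^ u, ∀ b < 2 ^ u', |sl τ u a - sl τ u' b| ≤ 2 := by
    intro a ha b hb
    have h1 := abs_le.1 (hsl a ha)
    have h2 := abs_le.1 (hsl' b hb)
    rw [abs_le]
    constructor <;> linarith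
  -- the estimate for one scale
  have hk : ∀ k : ℤ, volume {x | x ∈ G ∧ ∃ a < 2 ^ u, ∃ b < 2 ^ u', Q a b ∧
        η ≤ |Zc c φ τ u 0 k a g x| ∧ η ≤ |Zc c φ τ u' 0 k b g' x|} ≤
        ENNReal.ofReal (C / κ₁ ^ 2) * (∑ b ∈ Finset.range (2 ^ u'),
          ∫⁻ x, MC (sl τ u' b) 12 30 (Wt τ u' Yb (sl τ u' b) + u' + 1) k g' x ^ 2) +
        ENNReal.ofReal (C * κ₁ / (η ^ 2 * κ ^ 2)) * (∑ a ∈ Finset.range (2 ^ u),
          ∫⁻ x, MC (sl τ u a) 6 16 (Wt τ u 2 (sl τ u a) + u + 1) k g x ^ 2) +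
        ENNReal.ofReal (C * κ * M / η ^ 5) * ∑ b ∈ Finset.range (2 ^ u'),
          ∫⁻ x, ‖Zc c φ τ u' 0 k b g' x‖ₑ ^ 2 := by
    intro k
    set E1 : ℕ → Set Pl := fun b => {x | ENNReal.ofReal (κ₁ / 2) ≤
      MC (sl τ u' b) 12 30 (Vb b) k g' (x - (2 : ℝ) ^ k • ce c φ u' b)} with hE1
    set E2 : ℕ → Set Pl := fun a => {x | x ∈ G ∧ ∃ A ≤ mm τ u a,
      κ ≤ CA (sl τ u a) 4 6 k A g (x - (2 : ℝ) ^ k • ce c φ u a) ∧
        ∃ b < 2 ^ u', |sl τ u' b - sl τ u a| ≤ (2 : ℝ) ^ (-(A : ℤ)) ∧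
          η ≤ |Z (sl τ u' b) (ce c φ u' b) (mm τ u' b) (mp τ u' b) ((2 : ℝ) ^ 0) k g' x| ∧
          ∀ A' ≤ Vb b, CA (sl τ u' b) 12 30 k A' g' (x - (2 : ℝ) ^ k • ce c φ u' b) < κ₁} with hE2
    set E3 : ℕ → ℕ → Set Pl := fun b a => {x |
      η ≤ |Z (sl τ u a) (ce c φ u a) (mm τ u a) (mp τ u a) ((2 : ℝ) ^ 0) k g x| ∧
      η ≤ |Z (sl τ u' b) (ce c φ u' b) (mm τ u' b) (mp τ u' b) ((2 : ℝ) ^ 0) k g' x| ∧
      ∀ A' ≤ Af |sl τ u a - sl τ u' b|,
        CA (sl τ u a) 4 6 k A' g (x - (2 : ℝ) ^ k • ce c φ u a) < κ} with hE3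
    have hcov : {x | x ∈ G ∧ ∃ a < 2 ^ u, ∃ b < 2 ^ u', Q a b ∧
        η ≤ |Zc c φ τ u 0 k a g x| ∧ η ≤ |Zc c φ τ u' 0 k b g' x|} ⊆
        ((⋃ b ∈ Finset.range (2 ^ u'), E1 b) ∪ (⋃ a ∈ Finset.range (2 ^ u), E2 a)) ∪
        (⋃ b ∈ Finset.range (2 ^ u'), ⋃ a ∈ (Finset.range (2 ^ u)).filter
          (fun a => Q a b ∧ sl τ u a ≠ sl τ u' b), E3 b a) := by
      rintro x ⟨hxG, a, ha, b, hb, hab, hza, hzb⟩
      have hza' : η ≤ |Z (sl τ u a) (ce c φ u a) (mm τ u a) (mp τ u a) ((2 : ℝ) ^ 0) k g x| := hza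
      have hzb' : η ≤ |Z (sl τ u' b) (ce c φ u' b) (mm τ u' b) (mp τ u' b)
        ((2 : ℝ) ^ 0) k g' x| := hzb
      by_cases h1 : ∀ A' ≤ Vb b,
          CA (sl τ u' b) 12 30 k A' g' (x - (2 : ℝ) ^ k • ce c φ u' b) < κ₁
      swap
      · left; left
        push Not at h1
        obtain ⟨A', hA', hA'2⟩ := h1
        refine mem_iUnion₂.2 ⟨b, Finset.mem_range.2 hb, ?_⟩
        have h2 := hLCZc (sl τ u' b) 12 30 D' (ce c φ u' b) k g' x x (hsl' b hb) (hS'.cen b hb)
          (by norm_num) le_rfl (by norm_num) le_rfl hD' hg' hg0' (hgL' x hxG) (hself x k)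
        have h3 := leMC (sl τ u' b) 12 30 (Vb b) A' k g' (x - (2 : ℝ) ^ k • ce c φ u' b) κ₁ D'
          hA' hA'2 h2
        exact le_trans (ENNReal.ofReal_le_ofReal (by linarith)) h3
      · -- existence of a scale where the average is large
        have hex : ∃ B : ℕ, B ≤ mm τ u a ∧
            κ ≤ CA (sl τ u a) 4 6 k B g (x - (2 : ℝ) ^ k • ce c φ u a) := by
          have h2 := fun m : ℕ => (hCEY (sl τ u a) (ce c φ u a) m k g (hsl a ha) hg hg0).1 x
          have h3 := fun m : ℕ => (hYB (sl τ u a) (ce c φ u a) m ((2 : ℝ) ^ 0) k g (hsl a ha)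
            (by norm_num) hg).2.2.1 hg0 x
          have h4 : |Y (sl τ u a) (ce c φ u a) (mm τ u a) ((2 : ℝ) ^ 0) k g x -
            Y (sl τ u a) (ce c φ u a) (mp τ u a) ((2 : ℝ) ^ 0) k g x| ≥ η := hza'
          rcases abs_cases (Y (sl τ u a) (ce c φ u a) (mm τ u a) ((2 : ℝ) ^ 0) k g x -
            Y (sl τ u a) (ce c φ u a) (mp τ u a) ((2 : ℝ) ^ 0) k g x) with h5 | h5
          · refine ⟨mm τ u a, le_rfl, ?_⟩
            have := h2 (mm τ u a)
            have := h3 (mp τ u a)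
            linarith [h5.1]
          · refine ⟨mp τ u a, hmm a ha, ?_⟩
            have := h2 (mp τ u a)
            have := h3 (mm τ u a)
            linarith [h5.1]
        have hfs := Nat.find_spec hex
        have hfm := fun B => Nat.find_min hex (m := B)
        set AR := Nat.find hex with hAR
        have hAR1 : 1 ≤ AR := by
          by_contra h0
          have h0' : AR = 0 := by omega
          have h2 := hLCZc (sl τ u a) 4 6 D (ce c φ u a) k g x x (hsl a ha) (hS.cen a ha)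
            (by norm_num) (by norm_num) (by norm_num) (by norm_num) hD hg hg0 (hgL x hxG) (hself x k)
          have h3 := hfs.2
          rw [h0'] at h3
          linarith
        have hlow : ∀ B < AR, CA (sl τ u a) 4 6 k B g (x - (2 : ℝ) ^ k • ce c φ u a) < κ := by
          intro B hB
          by_contra hcon
          rw [not_lt] at hcon
          exact hfm B hB ⟨hB.le.trans hfs.1, hcon⟩
        rcases le_or_gt (|sl τ u' b - sl τ u a|) ((2 : ℝ) ^ (-(AR : ℤ))) with hle | hgt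
        · left; right
          refine mem_iUnion₂.2 ⟨a, Finset.mem_range.2 ha, ?_⟩
          exact ⟨hxG, AR, hfs.1, hfs.2, b, hb, hle, hzb', h1⟩
        · right
          have hne : sl τ u a ≠ sl τ u' b := by
            intro heq
            rw [heq, sub_self, abs_zero] at hgt
            have : (0 : ℝ) < (2 : ℝ) ^ (-(AR : ℤ)) := by positivity
            linarith
          refine mem_iUnion₂.2 ⟨b, Finset.mem_range.2 hb, mem_iUnion₂.2 ⟨a, ?_, ?_⟩⟩
          · exact Finset.mem_filter.2 ⟨Finset.mem_range.2 ha, hab, hne⟩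
          · refine ⟨hza', hzb', fun A' hA' => hlow A' ?_⟩
            have h5 := hAf |sl τ u a - sl τ u' b| (abs_pos.2 (sub_ne_zero.2 hne)) (hd2 a ha b hb)
            rw [abs_sub_comm] at hgt
            exact lt_of_le_of_lt hA' (h5.2.2 AR hAR1 hgt)
    refine (measure_mono hcov).trans ((measure_union_le _ _).trans (add_le_add
      ((measure_union_le _ _).trans (add_le_add ?_ ?_)) ?_))
    · refine (measure_biUnion_finset_le _ _).trans ?_
      rw [Finset.mul_sum]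
      refine Finset.sum_le_sum (fun b _ => ?_)
      refine (chebMC (sl τ u' b) 12 30 (Vb b) k g' hg'.1 ((2 : ℝ) ^ k • ce c φ u' b) (κ₁ / 2)
        (by positivity)).trans ?_
      refine mul_le_mul_left (ENNReal.ofReal_le_ofReal ?_) _
      rw [div_pow, one_div_div]
      exact div_le_div_of_nonneg_right (by linarith) (by positivity)
    · refine (measure_biUnion_finset_le _ _).trans ?_
      rw [Finset.mul_sum]
      refine Finset.sum_le_sum (fun a ha' => ?_)
      have ha : a < 2 ^ u := Finset.mem_range.1 ha'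
      have h1 := hGONc u' (sl τ u') (ce c φ u') (mm τ u') (mp τ u') _ _ _ _ hS' (sl τ u a)
        (ce c φ u a) (mm τ u a) k g g' η κ κ₁ Vb G (hsl a ha) hg hg' hg01 hg01' hη hη1 hκ hκ₁ hGκ₁
        (by
          intro b hb B hB hBd
          rw [abs_sub_comm] at hBd
          obtain ⟨h2, h3, h4⟩ := (hCQc.1 a ha).2.1 u' b B (by omega) hb hBd
          refine ⟨h2, h3, ?_⟩
          by_cases hBu : u + 1 ≤ B
          · have h5 := (hCQc.1 a ha).2.2 u' B (sl τ u' b) huu hBu hB hBd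
            have h6 := (hWTb (sl τ u' b)).1 (B - u - 1) (hYbu.trans h5)
            simp only [hVb]
            omega
          · simp only [hVb]
            omega)
      refine h1.trans ?_
      have h2 : {x | (∃ x' ∈ G, x' ∈ Sq x (2 * (2 : ℝ) ^ k)) ∧
          ∃ B ≤ mm τ u a, κ / 4 ≤ CA (sl τ u a) 6 16 k B g (x - (2 : ℝ) ^ k • ce c φ u a)} ⊆
          {x | ENNReal.ofReal (κ / 8) ≤
            MC (sl τ u a) 6 16 (Va a) k g (x - (2 : ℝ) ^ k • ce c φ u a)} := by
        rintro x ⟨⟨x', hx'G, hx'⟩, B, hB, hB2⟩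
        have h3 := hLCZc (sl τ u a) 6 16 D (ce c φ u a) k g x' x (hsl a ha) (hS.cen a ha)
            (by norm_num) (by norm_num) (by norm_num) (by norm_num) hD hg hg0 (hgL x' hx'G) hx'
        have h4 := leMC (sl τ u a) 6 16 (Va a) B k g (x - (2 : ℝ) ^ k • ce c φ u a) (κ / 4) D
          (by
            have := hWTa a ha
            simp only [hVa]
            omega) hB2 h3
        exact le_trans (ENNReal.ofReal_le_ofReal (by linarith)) h4
      refine (mul_le_mul_right ((measure_mono h2).trans (chebMC (sl τ u a) 6 16 (Va a) k g hg.1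
        ((2 : ℝ) ^ k • ce c φ u a) (κ / 8) (by positivity))) _).trans ?_
      rw [← mul_assoc, ← ENNReal.ofReal_mul (by positivity)]
      gcongr
      rw [div_pow, one_div_div, div_mul_div_comm]
      gcongr ?_ / _
      nlinarith
    · refine (measure_biUnion_finset_le _ _).trans ?_
      rw [Finset.mul_sum]
      refine Finset.sum_le_sum (fun b hb' => ?_)
      have hb : b < 2 ^ u' := Finset.mem_range.1 hb'
      have hZm : Measurable (fun x => ‖Zc c φ τ u' 0 k b g' x‖ₑ) := by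
        have h1 := fun m : ℕ => (hYB (sl τ u' b) (ce c φ u' b) m ((2 : ℝ) ^ 0) k g' (hsl' b hb)
            (by norm_num) hg').1.1
        exact ((h1 (mm τ u' b)).sub (h1 (mp τ u' b))).enorm
      have h0 : ∀ a ∈ (Finset.range (2 ^ u)).filter (fun a => Q a b ∧ sl τ u a ≠ sl τ u' b),
          volume (E3 b a) ≤ ENNReal.ofReal (C * κ / η ^ 5) *
            ∫⁻ x, ‖Zc c φ τ u' 0 k b g' x‖ₑ ^ 2 := by
        intro a ha'
        obtain ⟨ha, -, hne⟩ := Finset.mem_filter.1 ha'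
        rw [Finset.mem_range] at ha
        have h5 := hAf |sl τ u a - sl τ u' b| (abs_pos.2 (sub_ne_zero.2 hne)) (hd2 a ha b hb)
        have h6 := hGTHc (sl τ u a) (sl τ u' b) η κ (ce c φ u a) (ce c φ u' b) (mm τ u a)
          (mp τ u a) (mm τ u' b) (mp τ u' b) (Af |sl τ u a - sl τ u' b|) k g g' (hsl a ha)
          (hsl' b hb) (hmm a ha) (hmm' b hb) hη hη1 hκ h100 hg hg' hg01 hg01' h5.1 h5.2.1
        refine h6.trans ?_
        have h7 : volume {x | η / 2 ≤ |Z (sl τ u' b) (ce c φ u' b) (mm τ u' b) (mp τ u' b)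
            ((2 : ℝ) ^ 0) k g' x|} ≤ ENNReal.ofReal (1 / (η / 2) ^ 2) *
            ∫⁻ x, ‖Zc c φ τ u' 0 k b g' x‖ₑ ^ 2 := by
          refine le_trans (measure_mono ?_) (cheb _ hZm (η / 2) (by positivity))
          intro x hx
          have hx' : η / 2 ≤ |Zc c φ τ u' 0 k b g' x| := hx
          show ENNReal.ofReal (η / 2) ≤ ‖Zc c φ τ u' 0 k b g' x‖ₑ
          rw [Real.enorm_eq_ofReal_abs]
          exact ENNReal.ofReal_le_ofReal hx'
        refine (mul_le_mul_right h7 _).trans ?_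
        rw [← mul_assoc, ← ENNReal.ofReal_mul (by positivity)]
        gcongr
        have h8 : CT * κ / η ^ 3 * (1 / (η / 2) ^ 2) = 4 * CT * κ / η ^ 5 := by
          field_simp
          norm_num
        rw [h8]
        gcongr
      refine (measure_biUnion_finset_le _ _).trans ((Finset.sum_le_card_nsmul _ _ _ h0).trans ?_)
      rw [nsmul_eq_mul, ← mul_assoc]
      gcongr
      have h9 : (((Finset.range (2 ^ u)).filter
          (fun a => Q a b ∧ sl τ u a ≠ sl τ u' b)).card : ℝ) ≤ M := by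
        refine le_trans ?_ (hQ b hb)
        have h10 : {a : ℕ | a < 2 ^ u ∧ Q a b} =
            (((Finset.range (2 ^ u)).filter (fun a => Q a b) : Finset ℕ) : Set ℕ) := by
          ext a
          simp
        rw [h10, Set.ncard_coe_finset]
        exact_mod_cast Finset.card_le_card (fun a ha => by
          rw [Finset.mem_filter] at ha ⊢
          exact ⟨ha.1, ha.2.1⟩)
      rw [← ENNReal.ofReal_natCast, ← ENNReal.ofReal_mul (by positivity)]
      refine ENNReal.ofReal_le_ofReal ?_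
      have h11 : C * κ * M / η ^ 5 = M * (C * κ / η ^ 5) := by ring
      rw [h11]
      exact mul_le_mul_of_nonneg_right h9 (by positivity)
  refine (ENNReal.tsum_le_tsum hk).trans (le_of_eq ?_)
  rw [ENNReal.tsum_add, ENNReal.tsum_add, ENNReal.tsum_mul_left, ENNReal.tsum_mul_left,
    ENNReal.tsum_mul_left]

end Pool.Agent.Helper37.EQ
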