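import Pool.Agent.Helper20.EQ.St1
import Pool.Agent.Helper15.RG.M_SINC
import Pool.Agent.Helper29.LM.M_PH
import Pool.Agent.Helper4.LM.M_BBC
import Pool.Agent.Helper79.LM.M_PL
import Pool.Agent.Helper80.LM.M_FA
import Pool.Agent.Helper84.LM.M_FS

/-!
# Project EQ (MP_cb927e_an), module MXL: maximal difference
-/

set_option autoImplicit false

open MeasureTheory Set Filter Topology
open scoped ENNReal RealInnerProductSpace

namespace Pool.Agent.Helper37.EQ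

open Pool.Agent.Helper68.LM (Pl BB Bd Av HL ft fm DQ)
open Pool.Agent.Helper20.RG Pool.Agent.Helper20.EQ

/-- geometric sum -/
theorem geoHalf (n : ℕ) : ∑ w ∈ Finset.range n, (1 / (2 : ℝ)) ^ w ≤ 2 := by
  have h := geom_sum_eq (x := (1 / 2 : ℝ)) (by norm_num) n
  rw [h]
  have h2 : (0 : ℝ) < (1 / 2) ^ n := by positivity
  rw [div_le_iff_of_neg (by norm_num)]
  nlinarith

theorem geoTwo (n : ℕ) : ∑ w ∈ Finset.range (n + 1), (2 : ℝ) ^ w ≤ 2 * 2 ^ n := by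
  have h := geom_sum_eq (x := (2 : ℝ)) (by norm_num) (n + 1)
  rw [h, pow_succ]
  have h2 : (0 : ℝ) < 2 ^ n := by positivity
  norm_num
  linarith

/-- the numerical estimates for the three multipliers -/
theorem numMXL (s : ℕ → ℝ) (b : ℝ) (V : ℕ) (hb : 0 ≤ b) (h1 : ∀ w, |s w| ≤ 1)
    (h2 : ∀ w, |s w| * (2 ^ w * b) ≤ 1) (h3 : ∀ w, |1 - s w| ≤ 4 * (2 ^ w * b)) :
    ∑ w ∈ Finset.range (V + 1), (s w * (1 - s 0)) ^ 2 ≤ 64 * (min 1 (2 ^ V * b) * (1 / (1 + b))) ∧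
    (s 0 * (1 - s V)) ^ 2 ≤ 16 * (min 1 (2 ^ V * b) * (1 / (1 + b))) ∧
    ∑ w ∈ Finset.range (V + 1), ((s w - 1) * (s V * s 0)) ^ 2 ≤
      32 * (min 1 (2 ^ V * b) * (1 / (1 + b))) := by
  have hVb : 0 ≤ 2 ^ V * b := by positivity
  have hmin0 : 0 ≤ min 1 (2 ^ V * b) := le_min zero_le_one hVb
  have hsq : ∀ w, s w ^ 2 ≤ |s w| := by
    intro w
    rw [← sq_abs]
    have := abs_nonneg (s w)
    nlinarith [h1 w]
  have hd2 : ∀ w, |1 - s w| ≤ 2 := by
    intro w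
    have := abs_le.1 (h1 w)
    rw [abs_le]
    constructor <;> linarith
  have hdsq : ∀ w, (1 - s w) ^ 2 ≤ 2 * |1 - s w| := by
    intro w
    rw [← sq_abs]
    have := abs_nonneg (1 - s w)
    nlinarith [hd2 w]
  have hs0 : s 0 ^ 2 ≤ 2 * (1 / (1 + b)) := by
    have e1 := hsq 0
    have e2 := h2 0
    rw [pow_zero, one_mul] at e2
    have e3 := h1 0
    rw [mul_one_div, le_div_iff₀ (by positivity)]
    nlinarith [abs_nonneg (s 0)]
  refine ⟨?_, ?_, ?_⟩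
  · rcases lt_or_ge b 1 with hlt | hge
    · have hterm : ∀ w ∈ Finset.range (V + 1), (s w * (1 - s 0)) ^ 2 ≤ 16 * b * (1 / 2) ^ w := by
        intro w _
        have e1 : (1 - s 0) ^ 2 ≤ (4 * b) ^ 2 := by
          rw [← sq_abs]
          have := h3 0
          rw [pow_zero, one_mul] at this
          exact pow_le_pow_left₀ (abs_nonneg _) this 2
        have e2 : |s w| * b ≤ (1 / 2) ^ w := by
          have e3 : (1 / 2 : ℝ) ^ w = 1 / 2 ^ w := by rw [one_div, one_div, inv_pow]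
          rw [e3, le_div_iff₀ (by positivity)]
          have := h2 w
          linarith
        calc (s w * (1 - s 0)) ^ 2 = s w ^ 2 * (1 - s 0) ^ 2 := by ring
          _ ≤ |s w| * (4 * b) ^ 2 := mul_le_mul (hsq w) e1 (sq_nonneg _) (abs_nonneg _)
          _ = 16 * b * (|s w| * b) := by ring
          _ ≤ 16 * b * (1 / 2) ^ w := mul_le_mul_of_nonneg_left e2 (by positivity)
      refine (Finset.sum_le_sum hterm).trans ?_
      rw [← Finset.mul_sum]
      have e4 := geoHalf (V + 1)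
      have e5 : 16 * b * ∑ w ∈ Finset.range (V + 1), (1 / (2 : ℝ)) ^ w ≤ 32 * b := by
        nlinarith
      refine e5.trans ?_
      have e6 : b ≤ min 1 (2 ^ V * b) := by
        refine le_min hlt.le ?_
        have : (1 : ℝ) ≤ 2 ^ V := one_le_pow₀ (by norm_num)
        nlinarith
      have e7 : (1 / 2 : ℝ) ≤ 1 / (1 + b) := by
        refine one_div_le_one_div_of_le (by positivity) (by linarith)
      have e8 : min 1 (2 ^ V * b) * (1 / 2) ≤ min 1 (2 ^ V * b) * (1 / (1 + b)) :=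
        mul_le_mul_of_nonneg_left e7 hmin0
      linarith
    · have hX : min 1 (2 ^ V * b) = 1 := by
        refine min_eq_left ?_
        have : (1 : ℝ) ≤ 2 ^ V := one_le_pow₀ (by norm_num)
        nlinarith
      rw [hX, one_mul]
      have hb0 : 0 < b := by linarith
      have hterm : ∀ w ∈ Finset.range (V + 1), (s w * (1 - s 0)) ^ 2 ≤ 4 / b * (1 / 2) ^ w := by
        intro w _
        have e1 : (1 - s 0) ^ 2 ≤ 4 := by
          have := hdsq 0
          have := hd2 0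
          linarith
        have e2 : |s w| ≤ 1 / b * (1 / 2) ^ w := by
          have e3 : (1 / 2 : ℝ) ^ w = 1 / 2 ^ w := by rw [one_div, one_div, inv_pow]
          rw [e3, one_div_mul_one_div, le_div_iff₀ (by positivity)]
          have := h2 w
          linarith
        calc (s w * (1 - s 0)) ^ 2 = s w ^ 2 * (1 - s 0) ^ 2 := by ring
          _ ≤ |s w| * 4 := mul_le_mul (hsq w) e1 (sq_nonneg _) (abs_nonneg _)
          _ ≤ 1 / b * (1 / 2) ^ w * 4 := by linarith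
          _ = 4 / b * (1 / 2) ^ w := by ring
      refine (Finset.sum_le_sum hterm).trans ?_
      rw [← Finset.mul_sum]
      have e4 := geoHalf (V + 1)
      have e5 : 4 / b * ∑ w ∈ Finset.range (V + 1), (1 / (2 : ℝ)) ^ w ≤ 4 / b * 2 :=
        mul_le_mul_of_nonneg_left e4 (by positivity)
      refine e5.trans ?_
      rw [div_mul_eq_mul_div, mul_one_div, div_le_div_iff₀ hb0 (by linarith)]
      nlinarith
  · have e1 : (1 - s V) ^ 2 ≤ 8 * min 1 (2 ^ V * b) := by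
      rw [mul_min_of_nonneg _ _ (by norm_num), le_min_iff]
      have := hdsq V
      have := hd2 V
      have := h3 V
      constructor <;> linarith
    calc (s 0 * (1 - s V)) ^ 2 = (1 - s V) ^ 2 * s 0 ^ 2 := by ring
      _ ≤ (8 * min 1 (2 ^ V * b)) * (2 * (1 / (1 + b))) :=
        mul_le_mul e1 hs0 (sq_nonneg _) (by positivity)
      _ = 16 * (min 1 (2 ^ V * b) * (1 / (1 + b))) := by ring
  · have hterm : ∀ w ∈ Finset.range (V + 1), ((s w - 1) * (s V * s 0)) ^ 2 ≤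
        8 * b * (s V * s 0) ^ 2 * 2 ^ w := by
      intro w _
      have e1 := hdsq w
      have e2 := h3 w
      calc ((s w - 1) * (s V * s 0)) ^ 2 = (1 - s w) ^ 2 * (s V * s 0) ^ 2 := by ring
        _ ≤ (8 * b * 2 ^ w) * (s V * s 0) ^ 2 :=
          mul_le_mul_of_nonneg_right (by linarith) (sq_nonneg _)
        _ = _ := by ring
    refine (Finset.sum_le_sum hterm).trans ?_
    rw [← Finset.mul_sum]
    have e4 := geoTwo V
    have e5 : 8 * b * (s V * s 0) ^ 2 * ∑ w ∈ Finset.range (V + 1), (2 : ℝ) ^ w ≤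
        8 * b * (s V * s 0) ^ 2 * (2 * 2 ^ V) := mul_le_mul_of_nonneg_left e4 (by positivity)
    refine e5.trans ?_
    have e6 : (2 ^ V * b) * s V ^ 2 ≤ min 1 (2 ^ V * b) := by
      refine le_min ?_ ?_
      · have := hsq V
        have := h2 V
        nlinarith
      · have e7 := (hsq V).trans (h1 V)
        nlinarith
    calc 8 * b * (s V * s 0) ^ 2 * (2 * 2 ^ V) = 16 * (((2 ^ V * b) * s V ^ 2) * s 0 ^ 2) := by ring
      _ ≤ 16 * (min 1 (2 ^ V * b) * (2 * (1 / (1 + b)))) := by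
        refine mul_le_mul_of_nonneg_left ?_ (by norm_num)
        exact mul_le_mul e6 hs0 (sq_nonneg _) hmin0
      _ = _ := by ring

theorem sq4 (a b c d : ℝ≥0∞) : (a + b + c + d) ^ 2 ≤ 4 * (a ^ 2 + b ^ 2 + c ^ 2 + d ^ 2) := by
  rcases eq_or_ne a ⊤ with rfl | ha
  · simp
  rcases eq_or_ne b ⊤ with rfl | hb
  · simp
  rcases eq_or_ne c ⊤ with rfl | hc
  · simp
  rcases eq_or_ne d ⊤ with rfl | hd
  · simp
  lift a to NNReal using ha
  lift b to NNReal using hb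
  lift c to NNReal using hc
  lift d to NNReal using hd
  norm_cast
  rw [← NNReal.coe_le_coe]
  push_cast
  nlinarith [sq_nonneg ((a : ℝ) - b), sq_nonneg ((a : ℝ) - c), sq_nonneg ((a : ℝ) - d),
    sq_nonneg ((b : ℝ) - c), sq_nonneg ((b : ℝ) - d), sq_nonneg ((c : ℝ) - d)]

theorem supSq (V : ℕ) (T : ℕ → ℝ≥0∞) :
    ((Finset.range (V + 1)).sup T) ^ 2 ≤ ∑ w ∈ Finset.range (V + 1), T w ^ 2 := by
  obtain ⟨w, hw, he⟩ := Finset.exists_mem_eq_sup (Finset.range (V + 1)) ⟨0, by simp⟩ T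
  rw [he]
  exact Finset.single_le_sum (f := fun w => T w ^ 2) (fun _ _ => zero_le) hw

theorem enormMul (r : ℝ) (z : ℂ) : ‖((r : ℝ) : ℂ) * z‖ₑ ^ 2 = ENNReal.ofReal (r ^ 2) * ‖z‖ₑ ^ 2 := by
  rw [enorm_mul, mul_pow]
  congr 1
  rw [← ofReal_norm, ← ENNReal.ofReal_pow (norm_nonneg _)]
  congr 1
  rw [Complex.norm_real, Real.norm_eq_abs, sq_abs]

theorem hMXL (hSGE : StSGE) (hMX1 : StMX1) : StMXL := by
  obtain ⟨hS1, hS2, -⟩ := hSGE
  obtain ⟨C1, hC1, hM⟩ := hMX1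
  obtain ⟨hQ1, hQ2, -⟩ := Pool.Agent.Helper15.RG.hSINC
  have hBBC := Pool.Agent.Helper4.LM.hBBC Pool.Agent.Helper29.LM.hPH
  have hFS := Pool.Agent.Helper84.LM.hFS Pool.Agent.Helper29.LM.hPH
  refine ⟨4 * (64 + 16 * (C1 + 1) + 32), by positivity, ?_⟩
  intro e h l V he hh hl
  obtain ⟨hBd, -⟩ := hS1 e he
  set μ := sge e with hμ
  have hBB : ∀ (t : ℝ) (g : Pl → ℝ), 0 ≤ t → BB g → BB (Av μ t g) :=
    fun t g ht hg => hBBC.2.2.1 μ 1 1 t g hBd ht hg
  have hsub : ∀ g g' : Pl → ℝ, BB g → BB g' → BB (fun x => g x - g' x) := hBBC.1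
  have hAs : ∀ (t : ℝ) (g g' : Pl → ℝ) (x : Pl), BB g → BB g' →
      Av μ t (fun y => g y - g' y) x = Av μ t g x - Av μ t g' x := by
    intro t g g' x hg hg'
    have h1 := hBBC.2.2.2.2.2.2 μ 1 1 t (fun y => g y - g' y) g' x hBd (hsub g g' hg hg') hg'
    have h2 : (fun y => g y - g' y + g' y) = g := by funext y; ring
    rw [h2] at h1
    linarith
  have hft : ∀ (t : ℝ) (g : Pl → ℝ) (ξ : Pl), 0 < t → BB g →
      ft (Av μ t g) ξ = ((Real.sinc (Real.pi * (t * ⟪e, ξ⟫)) : ℝ) : ℂ) * ft g ξ := by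
    intro t g ξ ht hg
    rw [Pool.Agent.Helper80.LM.hFA μ 1 1 t g hBd ht hg ξ, hS2, real_inner_smul_right]
  have hfs : ∀ (g g' : Pl → ℝ) (ξ : Pl), BB g → BB g' →
      ft (fun x => g x - g' x) ξ = ft g ξ - ft g' ξ := fun g g' ξ hg hg' =>
    hFS.2.2.2 g g' hg hg' ξ
  have hlw : ∀ w : ℕ, 0 < (2 : ℝ) ^ w * l := fun w => by positivity
  -- the functions
  set B : ℕ → (Pl → ℝ) → Pl → ℝ := fun w g => Av μ ((2 : ℝ) ^ w * l) g with hBdef
  have hBbb : ∀ w g, BB g → BB (B w g) := fun w g hg => hBB _ g (hlw w).le hg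
  have hB0 : Av μ l h = B 0 h := by simp [hBdef]
  set b0 := B 0 h with hb0
  have hb0B : BB b0 := hBbb 0 h hh
  set g1 : Pl → ℝ := fun x => h x - b0 x with hg1
  have hg1B : BB g1 := hsub _ _ hh hb0B
  set bV := B V b0 with hbV
  have hbVB : BB bV := hBbb V _ hb0B
  set g3 : Pl → ℝ := fun x => b0 x - bV x with hg3
  have hg3B : BB g3 := hsub _ _ hb0B hbVB
  have hT3B : ∀ w, BB (fun x => B w bV x - bV x) := fun w => hsub _ _ (hBbb w _ hbVB) hbVB
  -- pointwise estimate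
  have hpt : ∀ x, ((Finset.range (V + 1)).sup fun w =>
      ‖Av μ ((2 : ℝ) ^ w * l) h x - Av μ l h x‖ₑ) ^ 2 ≤
      4 * (∑ w ∈ Finset.range (V + 1), ‖B w g1 x‖ₑ ^ 2 +
        ((Finset.range (V + 1)).sup fun w => ‖B w g3 x‖ₑ) ^ 2 +
        ∑ w ∈ Finset.range (V + 1), ‖B w bV x - bV x‖ₑ ^ 2 + ‖g3 x‖ₑ ^ 2) := by
    intro x
    have h1 : ((Finset.range (V + 1)).sup fun w =>
        ‖Av μ ((2 : ℝ) ^ w * l) h x - Av μ l h x‖ₑ) ≤
        ((Finset.range (V + 1)).sup fun w => ‖B w g1 x‖ₑ) +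
        ((Finset.range (V + 1)).sup fun w => ‖B w g3 x‖ₑ) +
        ((Finset.range (V + 1)).sup fun w => ‖B w bV x - bV x‖ₑ) + ‖g3 x‖ₑ := by
      refine Finset.sup_le (fun w hw => ?_)
      have e1 : Av μ ((2 : ℝ) ^ w * l) h x - Av μ l h x =
          B w g1 x + B w g3 x + (B w bV x - bV x) + -(g3 x) := by
        have e2 : B w g1 x = B w h x - B w b0 x := hAs _ _ _ x hh hb0B
        have e3 : B w g3 x = B w b0 x - B w bV x := hAs _ _ _ x hb0B hbVB
        rw [e2, e3, hB0]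
        simp only [hg3, hBdef]
        ring
      rw [e1]
      refine (enorm_add_le _ _).trans ?_
      rw [enorm_neg]
      refine add_le_add ((enorm_add_le _ _).trans (add_le_add ((enorm_add_le _ _).trans
        (add_le_add ?_ ?_)) ?_)) le_rfl
      · exact Finset.le_sup (f := fun w => ‖B w g1 x‖ₑ) hw
      · exact Finset.le_sup (f := fun w => ‖B w g3 x‖ₑ) hw
      · exact Finset.le_sup (f := fun w => ‖B w bV x - bV x‖ₑ) hw
    refine (pow_le_pow_left' h1 2).trans ((sq4 _ _ _ _).trans ?_)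
    gcongr
    · exact supSq V _
    · exact supSq V _
  -- measurability
  have hms : ∀ g : Pl → ℝ, BB g → Measurable (fun x => ‖g x‖ₑ ^ 2) := fun g hg =>
    (hg.1.enorm).pow_const 2
  have hmf : ∀ g : Pl → ℝ, BB g → Measurable (fun x => ‖ft g x‖ₑ ^ 2) := fun g hg =>
    ((Pool.Agent.Helper79.LM.hPL g hg).1.enorm).pow_const 2
  have hPLc : ∀ g : Pl → ℝ, BB g → ∫⁻ x, ‖g x‖ₑ ^ 2 = ∫⁻ ξ, ‖ft g ξ‖ₑ ^ 2 := fun g hg =>
    (Pool.Agent.Helper79.LM.hPL g hg).2.symm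
  have hm1 : Measurable (fun x => ∑ w ∈ Finset.range (V + 1), ‖B w g1 x‖ₑ ^ 2) :=
    Finset.measurable_fun_sum _ (fun w _ => hms _ (hBbb w _ hg1B))
  have hm3 : Measurable (fun x => ∑ w ∈ Finset.range (V + 1), ‖B w bV x - bV x‖ₑ ^ 2) :=
    Finset.measurable_fun_sum _ (fun w _ => hms _ (hT3B w))
  have hm4 : Measurable (fun x => ‖g3 x‖ₑ ^ 2) := hms _ hg3B
  have hm1' : Measurable (fun x => ∑ w ∈ Finset.range (V + 1), ‖ft (B w g1) x‖ₑ ^ 2) :=
    Finset.measurable_fun_sum _ (fun w _ => hmf _ (hBbb w _ hg1B))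
  have hm3' : Measurable (fun ξ => ∑ w ∈ Finset.range (V + 1),
      ‖ft (fun x => B w bV x - bV x) ξ‖ₑ ^ 2) :=
    Finset.measurable_fun_sum _ (fun w _ => hmf _ (hT3B w))
  have hm4' : Measurable (fun x => ‖ft g3 x‖ₑ ^ 2) := hmf _ hg3B
  have hint : ∫⁻ x, ((Finset.range (V + 1)).sup fun w =>
      ‖Av μ ((2 : ℝ) ^ w * l) h x - Av μ l h x‖ₑ) ^ 2 ≤
      4 * ((∫⁻ ξ, ∑ w ∈ Finset.range (V + 1), ‖ft (B w g1) ξ‖ₑ ^ 2) +
        ENNReal.ofReal C1 * (∫⁻ ξ, ‖ft g3 ξ‖ₑ ^ 2) +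
        (∫⁻ ξ, ∑ w ∈ Finset.range (V + 1), ‖ft (fun x => B w bV x - bV x) ξ‖ₑ ^ 2) +
        ∫⁻ ξ, ‖ft g3 ξ‖ₑ ^ 2) := by
    refine (lintegral_mono hpt).trans ?_
    rw [lintegral_const_mul' _ _ (by norm_num)]
    gcongr
    rw [lintegral_add_right _ hm4, lintegral_add_right _ hm3, lintegral_add_left hm1]
    refine add_le_add (add_le_add (add_le_add ?_ ?_) ?_) ?_
    · rw [lintegral_finsetSum _ (fun w _ => hms _ (hBbb w _ hg1B)),
        lintegral_finsetSum _ (fun w _ => hmf _ (hBbb w _ hg1B))]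
      exact Finset.sum_le_sum (fun w _ => (hPLc _ (hBbb w _ hg1B)).le)
    · rw [← hPLc _ hg3B]
      exact hM e g3 l V hg3B hl
    · rw [lintegral_finsetSum _ (fun w _ => hms _ (hT3B w)),
        lintegral_finsetSum _ (fun w _ => hmf _ (hT3B w))]
      exact Finset.sum_le_sum (fun w _ => (hPLc _ (hT3B w)).le)
    · exact (hPLc _ hg3B).le
  refine hint.trans ?_
  rw [← lintegral_const_mul' _ _ (by norm_num), ← lintegral_add_left hm1',
    ← lintegral_add_right _ hm3', ← lintegral_add_right _ hm4', ← lintegral_const_mul' _ _ (by norm_num)]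
  refine lintegral_mono (fun ξ => ?_)
  -- the multipliers
  set s : ℕ → ℝ := fun w => Real.sinc (Real.pi * ((2 : ℝ) ^ w * l * ⟪e, ξ⟫)) with hs
  set b : ℝ := l * |⟪e, ξ⟫| with hb
  have hb0' : 0 ≤ b := by positivity
  have hpi := Real.pi_pos
  have habs : ∀ w : ℕ, |Real.pi * ((2 : ℝ) ^ w * l * ⟪e, ξ⟫)| = Real.pi * (2 ^ w * b) := by
    intro w
    rw [hb, abs_mul, abs_mul, abs_mul, abs_of_pos hpi, abs_of_pos hl,
      abs_of_pos (by positivity : (0 : ℝ) < 2 ^ w)]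
    ring
  have hn := numMXL s b V hb0' (fun w => (hQ1 _).1) (fun w => by
    have h1 := (hQ1 (Real.pi * ((2 : ℝ) ^ w * l * ⟪e, ξ⟫))).2.1
    rw [abs_mul, habs w] at h1
    have h2 : 0 ≤ |s w| * (2 ^ w * b) := by positivity
    have h3 : Real.pi * (2 ^ w * b) * |s w| ≤ 1 := h1
    nlinarith [Real.pi_gt_three]) (fun w => by
    have h1 := (hQ1 (Real.pi * ((2 : ℝ) ^ w * l * ⟪e, ξ⟫))).2.2
    rw [habs w] at h1
    have h2 : 0 ≤ 2 ^ w * b := by positivity
    nlinarith [Real.pi_lt_four])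
  obtain ⟨hn1, hn2, hn3⟩ := hn
  have hf0 : ft b0 ξ = ((s 0 : ℝ) : ℂ) * ft h ξ := by
    rw [hb0]
    exact hft _ h ξ (hlw 0) hh
  have hfV : ft bV ξ = ((s V * s 0 : ℝ) : ℂ) * ft h ξ := by
    rw [hbV]
    have := hft _ b0 ξ (hlw V) hb0B
    rw [hf0] at this
    rw [show ft (B V b0) ξ = ft (Av μ ((2 : ℝ) ^ V * l) b0) ξ from rfl, this]
    push_cast
    ring
  have hf1 : ∀ w, ft (B w g1) ξ = ((s w * (1 - s 0) : ℝ) : ℂ) * ft h ξ := by
    intro w
    have h1 := hft _ g1 ξ (hlw w) hg1B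
    have h2 : ft g1 ξ = ft h ξ - ft b0 ξ := hfs h b0 ξ hh hb0B
    rw [h2, hf0] at h1
    rw [show ft (B w g1) ξ = ft (Av μ ((2 : ℝ) ^ w * l) g1) ξ from rfl, h1]
    push_cast
    ring
  have hf3 : ft g3 ξ = ((s 0 * (1 - s V) : ℝ) : ℂ) * ft h ξ := by
    have h2 : ft g3 ξ = ft b0 ξ - ft bV ξ := hfs b0 bV ξ hb0B hbVB
    rw [h2, hf0, hfV]
    push_cast
    ring
  have hf4 : ∀ w, ft (fun x => B w bV x - bV x) ξ =
      (((s w - 1) * (s V * s 0) : ℝ) : ℂ) * ft h ξ := by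
    intro w
    have h2 : ft (fun x => B w bV x - bV x) ξ = ft (B w bV) ξ - ft bV ξ :=
      hfs _ bV ξ (hBbb w _ hbVB) hbVB
    have h1 := hft _ bV ξ (hlw w) hbVB
    rw [h2, show ft (B w bV) ξ = ft (Av μ ((2 : ℝ) ^ w * l) bV) ξ from rfl, h1, hfV]
    push_cast
    ring
  simp only [hf1, hf3, hf4, enormMul]
  rw [← Finset.sum_mul, ← Finset.sum_mul, ← ENNReal.ofReal_sum_of_nonneg (fun _ _ => sq_nonneg _),
    ← ENNReal.ofReal_sum_of_nonneg (fun _ _ => sq_nonneg _), ← mul_assoc, ← add_mul, ← add_mul,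
    ← add_mul, ← mul_assoc]
  gcongr
  rw [← ENNReal.ofReal_mul hC1.le, ← ENNReal.ofReal_add (by positivity) (by positivity),
    ← ENNReal.ofReal_add (by positivity) (by positivity),
    ← ENNReal.ofReal_add (by positivity) (by positivity)]
  rw [show (4 : ℝ≥0∞) = ENNReal.ofReal 4 by norm_num, ← ENNReal.ofReal_mul (by norm_num)]
  refine ENNReal.ofReal_le_ofReal ?_
  have hn2' := mul_le_mul_of_nonneg_left hn2 hC1.le
  nlinarith

end Pool.Agent.Helper37.EQ
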